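import Mathlib

set_option autoImplicit false

/-!
# Integral domination graphs under top-`k` ballots: definitions

`V` is the set of voters, `C` the set of candidates, and `m` the number of candidates.
-/

namespace Pool.Agent.R547.TopK

/-- A preference profile with `m` candidates: every voter `i` has a strict linear order on `C`,
given by the bijection `P i` from the candidates to the positions `0, …, m - 1` (position `0` is
the best one), so `i` ranks `a` above `b` if `P i a < P i b`. -/
abbrev Profile (V C : Type) (m : ℕ) := V → C ≃ Fin m

variable {V C : Type} {m : ℕ}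

/-- `c = top(i)`: the voter `i` ranks `c` first. -/
def IsTop (P : Profile V C m) (i : V) (c : C) : Prop := (P i c : ℕ) = 0

/-- The list `L_i`: the `k` candidates which the voter `i` ranks highest. -/
def ballot (P : Profile V C m) (k : ℕ) (i : V) : Set C := {c | (P i c : ℕ) < k}

/-- The edges of the graph `G_k(a)`: `(i, j)` is an edge if `top(j) = a`, or if `a ∈ L_i` and the
voter `i` does not rank `top(j)` above `a`. -/
def Edge (P : Profile V C m) (k : ℕ) (a : C) (i j : V) : Prop :=
  IsTop P j a ∨ (a ∈ ballot P k i ∧ ∀ t, IsTop P j t → ¬ P i t < P i a)

/-- There is a perfect matching on `S` in `G_k(a)`: a bijection `M : S → S` such that `(i, M i)` is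
an edge for every `i ∈ S`. -/
def HasPerfectMatching (P : Profile V C m) (k : ℕ) (a : C) (S : Finset V) : Prop :=
  ∃ M : Equiv.Perm S, ∀ i : S, Edge P k a (i : V) (M i : V)

end Pool.Agent.R547.TopK
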