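import Pool.Agent.R547.TopK.Defs

set_option autoImplicit false

/-!
# Integral domination graphs under top-`k` ballots: a family of profiles

The candidates are `Fin (t + 2) ⊕ Fin N`. For every `x : Fin (t + 2)` there are `t` voters of the
first kind, who rank `x, x + 1, …` (cyclically) and then `Fin N`, and `t + 2` voters of the second
kind, who rank `x`, then `Fin N`, and then the others. We take `k = N + 1`.
-/

namespace Pool.Agent.R547.TopK

variable {V C : Type} {m : ℕ}

/-- The dual bound on the size of `S`. -/
theorem card_le_of_dual [Fintype V] (P : Profile V C m) (k : ℕ) (a : C) (y : V → ℕ) (π : V → ℤ)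
    (h : ∀ i j, Edge P k a i j → 1 ≤ (y i : ℤ) + π i - π j) (S : Finset V)
    (hS : HasPerfectMatching P k a S) : S.card ≤ ∑ i, y i := by
  classical
  obtain ⟨M, hM⟩ := hS
  have h1 : ((S.card : ℕ) : ℤ) ≤ ∑ i : S, ((y i.1 : ℤ) + π i.1 - π (M i).1) := by
    have : ((S.card : ℕ) : ℤ) = ∑ _i : S, (1 : ℤ) := by simp
    rw [this]
    exact Finset.sum_le_sum fun i _ => h _ _ (hM i)
  have h2 : ∑ i : S, ((y i.1 : ℤ) + π i.1 - π (M i).1) = ∑ i : S, (y i.1 : ℤ) := by
    have h3 : ∑ i : S, π (M i).1 = ∑ i : S, π i.1 := Equiv.sum_comp M fun i : S => π i.1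
    rw [Finset.sum_sub_distrib, Finset.sum_add_distrib, h3]
    ring
  have h3 : ∑ i : S, (y i.1 : ℤ) = ((∑ i ∈ S, y i : ℕ) : ℤ) := by
    push_cast
    exact Finset.sum_coe_sort S fun i => (y i : ℤ)
  rw [h2, h3] at h1
  have h4 : S.card ≤ ∑ i ∈ S, y i := by exact_mod_cast h1
  exact h4.trans (Finset.sum_le_univ_sum_of_nonneg fun _ => Nat.zero_le _)

/-- The set of voters. -/
abbrev Vot (t : ℕ) : Type := Fin (t + 2) × (Fin t ⊕ Fin (t + 2))

/-- The set of candidates. -/
abbrev Cand (t N : ℕ) : Type := Fin (t + 2) ⊕ Fin N

/-- The ranking of the voters of the first kind. -/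
def rankA (t N : ℕ) (x : Fin (t + 2)) : Cand t N ≃ Fin (t + 2 + N) :=
  (Equiv.sumCongr (Equiv.subRight x) (Equiv.refl _)).trans finSumFinEquiv

/-- The ranking of the voters of the second kind, as a function. -/
def funB (t N : ℕ) (x : Fin (t + 2)) : Cand t N → Fin (t + 2 + N)
  | Sum.inl z => if z - x = 0 then ⟨0, by omega⟩ else ⟨N + (z - x).1, by omega⟩
  | Sum.inr y => ⟨1 + y.1, by omega⟩

theorem funB_injective (t N : ℕ) (x : Fin (t + 2)) : Function.Injective (funB t N x) := by
  rintro (z | y) (z' | y') h
  · have h1 := congrArg Fin.val h
    simp only [funB] at h1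
    have key : (z - x) = (z' - x) := by
      split_ifs at h1 with h2 h3 h3
      · rw [h2, h3]
      · exfalso
        apply h3
        apply Fin.ext
        simp only [Fin.val_zero] at h1 ⊢
        omega
      · exfalso
        apply h2
        apply Fin.ext
        simp only [Fin.val_zero] at h1 ⊢
        omega
      · apply Fin.ext
        simp only at h1
        omega
    have := sub_left_injective key
    rw [this]
  · exfalso
    have h1 := congrArg Fin.val h
    simp only [funB] at h1
    split_ifs at h1 with h2
    · simp only at h1
      omega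
    · have h3 : (z - x).1 ≠ 0 := fun h4 => h2 (Fin.ext h4)
      simp only at h1
      omega
  · exfalso
    have h1 := congrArg Fin.val h
    simp only [funB] at h1
    split_ifs at h1 with h2
    · simp only at h1
      omega
    · have h3 : (z' - x).1 ≠ 0 := fun h4 => h2 (Fin.ext h4)
      simp only at h1
      omega
  · have h1 := congrArg Fin.val h
    simp only [funB] at h1
    have : y = y' := Fin.ext (by omega)
    rw [this]

/-- The ranking of the voters of the second kind. -/
noncomputable def rankB (t N : ℕ) (x : Fin (t + 2)) : Cand t N ≃ Fin (t + 2 + N) :=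
  Equiv.ofBijective (funB t N x)
    ((Fintype.bijective_iff_injective_and_card _).2 ⟨funB_injective t N x, by simp⟩)

/-- The profile. -/
noncomputable def prof (t N : ℕ) : Profile (Vot t) (Cand t N) (t + 2 + N)
  | (x, Sum.inl _) => rankA t N x
  | (x, Sum.inr _) => rankB t N x

theorem rankA_inl (t N : ℕ) (x z : Fin (t + 2)) :
    (rankA t N x (Sum.inl z) : ℕ) = (z - x).1 := by
  simp [rankA]

theorem rankA_inr (t N : ℕ) (x : Fin (t + 2)) (y : Fin N) :
    (rankA t N x (Sum.inr y) : ℕ) = t + 2 + y.1 := by
  simp [rankA]

theorem rankB_inl (t N : ℕ) (x z : Fin (t + 2)) :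
    (rankB t N x (Sum.inl z) : ℕ) = if z = x then 0 else N + (z - x).1 := by
  show (funB t N x (Sum.inl z) : ℕ) = _
  simp only [funB, sub_eq_zero]
  split_ifs <;> rfl

theorem rankB_inr (t N : ℕ) (x : Fin (t + 2)) (y : Fin N) :
    (rankB t N x (Sum.inr y) : ℕ) = 1 + y.1 := rfl

theorem isTop_iff (t N : ℕ) (i : Vot t) (c : Cand t N) :
    IsTop (prof t N) i c ↔ c = Sum.inl i.1 := by
  rcases i with ⟨x, _ | _⟩ <;> rcases c with z | y <;> simp only [IsTop, prof]
  · rw [rankA_inl]
    constructor
    · intro h
      have : z - x = 0 := Fin.ext h
      rw [sub_eq_zero.1 this]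
    · intro h
      rw [Sum.inl_injective h]
      simp
  · rw [rankA_inr]
    simp
  · rw [rankB_inl]
    constructor
    · intro h
      split_ifs at h with h1
      · rw [h1]
      · exfalso
        apply h1
        have : z - x = 0 := Fin.ext (by simpa using (Nat.add_eq_zero_iff.1 h).2)
        exact sub_eq_zero.1 this
    · intro h
      rw [Sum.inl_injective h]
      simp
  · rw [rankB_inr]
    simp

theorem edge_iff (t N k : ℕ) (a : Cand t N) (i j : Vot t) :
    Edge (prof t N) k a i j ↔ a = Sum.inl j.1 ∨
      ((prof t N i a : ℕ) < k ∧ (prof t N i a : ℕ) ≤ prof t N i (Sum.inl j.1)) := by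
  unfold Edge
  rw [isTop_iff]
  simp only [isTop_iff, ballot, Set.mem_ofPred_eq, forall_eq, not_lt, Fin.le_def]

/-- The bound for the candidates in `Fin N`. -/
theorem bound_inr (t N : ℕ) (y : Fin N) (S : Finset (Vot t))
    (hS : HasPerfectMatching (prof t N) (N + 1) (Sum.inr y) S) : S.card ≤ (t + 2) ^ 2 := by
  classical
  have h := card_le_of_dual (prof t N) (N + 1) (Sum.inr y)
    (fun i => match i with
      | (_, Sum.inl _) => 0
      | (_, Sum.inr _) => 1) (fun _ => 0) ?_ S hS
  · refine h.trans (le_of_eq ?_)
    rw [Fintype.sum_prod_type]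
    simp only [Fintype.sum_sum_type]
    simp
    ring
  · rintro ⟨x, i | i⟩ j hij
    · exfalso
      rw [edge_iff] at hij
      rcases hij with h | ⟨-, h⟩
      · simp at h
      · simp only [prof] at h
        rw [rankA_inl, rankA_inr] at h
        have := (j.1 - x).2
        omega
    · simp

/-- The bound for the candidates in `Fin (t + 2)`. -/
theorem bound_inl (t N : ℕ) (z : Fin (t + 2)) (S : Finset (Vot t))
    (hS : HasPerfectMatching (prof t N) (N + 1) (Sum.inl z) S) : S.card ≤ (t + 2) ^ 2 := by
  classical
  have h := card_le_of_dual (prof t N) (N + 1) (Sum.inl z)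
    (fun i => match i with
      | (x, Sum.inl _) => if x = z then 2 else if z - x = Fin.last (t + 1) then 0 else 1
      | (x, Sum.inr _) => if x = z then 2 else 0) (fun i => if i.1 = z then 0 else 1) ?_ S hS
  · refine h.trans (le_of_eq ?_)
    rw [Fintype.sum_prod_type]
    simp only [Fintype.sum_sum_type]
    simp only [Finset.sum_const, Finset.card_univ, Fintype.card_fin, smul_eq_mul]
    rw [Finset.sum_add_distrib, ← Finset.mul_sum, ← Finset.mul_sum]
    have h1 : ∑ x : Fin (t + 2), (if x = z then 2 else 0) = 2 := by simp
    have h2 : ∑ x : Fin (t + 2),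
        (if x = z then 2 else if z - x = Fin.last (t + 1) then 0 else 1) = t + 2 := by
      have h3 : ∀ x : Fin (t + 2),
          (if x = z then 2 else if z - x = Fin.last (t + 1) then 0 else 1) +
            (if x = z - Fin.last (t + 1) then 1 else 0) = 1 + (if x = z then 1 else 0) := by
        intro x
        by_cases hx : x = z
        · have h4 : x ≠ z - Fin.last (t + 1) := by
            intro h5
            rw [hx] at h5
            have h6 : Fin.last (t + 1) = 0 := by
              have := sub_eq_self.1 h5.symm
              exact this
            exact absurd (congrArg Fin.val h6) (by simp)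
          simp [hx] at h4 ⊢
          exact h4
        · by_cases h4 : z - x = Fin.last (t + 1)
          · have h5 : x = z - Fin.last (t + 1) := by
              rw [← h4]; abel
            simp [hx, h4, ← h5]
          · have h5 : x ≠ z - Fin.last (t + 1) := by
              intro h6
              apply h4
              rw [h6]; abel
            simp [hx, h4, h5]
      have h4 := Finset.sum_congr (s₁ := (Finset.univ : Finset (Fin (t + 2)))) rfl
        fun x _ => h3 x
      rw [Finset.sum_add_distrib, Finset.sum_add_distrib] at h4
      simp only [Finset.sum_ite_eq', Finset.mem_univ, if_true, Finset.sum_const,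
        Finset.card_univ, Fintype.card_fin, smul_eq_mul, mul_one] at h4
      omega
    rw [h1, h2]
    ring
  · rintro ⟨x, i | i⟩ j hij
    · rw [edge_iff] at hij
      simp only
      by_cases hx : x = z
      · simp only [hx, if_true]
        split_ifs <;> norm_num
      · simp only [hx, if_false]
        by_cases hj : j.1 = z
        · simp only [hj, if_true]
          split_ifs <;> norm_num
        · simp only [hj, if_false]
          have h1 : z - x ≠ Fin.last (t + 1) := by
            intro h2
            rcases hij with h | ⟨-, h⟩
            · exact hj (Sum.inl_injective h).symm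
            · simp only [prof] at h
              rw [rankA_inl, rankA_inl, h2] at h
              have h3 : j.1 - x = Fin.last (t + 1) := by
                apply Fin.ext
                have := (j.1 - x).2
                simp only [Fin.val_last] at h ⊢
                omega
              have h4 : j.1 - x = z - x := h3.trans h2.symm
              exact hj (sub_left_injective h4)
          simp [h1]
    · rw [edge_iff] at hij
      simp only
      by_cases hx : x = z
      · simp only [hx, if_true]
        split_ifs <;> norm_num
      · simp only [hx, if_false]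
        have hj : j.1 = z := by
          rcases hij with h | ⟨h, -⟩
          · exact (Sum.inl_injective h).symm
          · exfalso
            simp only [prof] at h
            rw [rankB_inl, if_neg (Ne.symm hx)] at h
            have h3 : (z - x).1 ≠ 0 := by
              intro h4
              have h5 : z - x = 0 := Fin.ext h4
              exact hx (sub_eq_zero.1 h5).symm
            omega
        simp [hj]

/-- The bound for all candidates. -/
theorem bound (t N : ℕ) (a : Cand t N) (S : Finset (Vot t))
    (hS : HasPerfectMatching (prof t N) (N + 1) a S) : S.card ≤ (t + 2) ^ 2 := by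
  rcases a with z | y
  · exact bound_inl t N z S hS
  · exact bound_inr t N y S hS

theorem card_vot (t : ℕ) : Fintype.card (Vot t) = 2 * (t + 1) * (t + 2) := by
  simp
  ring

end Pool.Agent.R547.TopK
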